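import Pool.Agent.Y491.GP.Main

/-!
# The explicit form of the balance constant
-/

set_option autoImplicit false
set_option linter.unusedSectionVars false

open Finset
open scoped Classical

namespace Pool.Agent.Y491.GP

open Pool.Agent.TH161.LW Pool.Agent.Y491.BF Pool.Agent.H13R3.WB Pool.Agent.Y491.HG

lemma pair_of_balance {X : Type} [Fintype X] [PartialOrder X] [Nonempty X] {β : ℝ} (hβ : 0 < β)
    (h : β ≤ balance X) :
    ∃ x y : X, x ≠ y ∧
      β ≤
        (({f : X ≃ Fin (Fintype.card X) | StrictMono (⇑f) ∧ f y < f x}.ncard : ℕ) : ℝ) /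
          (({f : X ≃ Fin (Fintype.card X) | StrictMono (⇑f)}.ncard : ℕ) : ℝ) ∧
      (({f : X ≃ Fin (Fintype.card X) | StrictMono (⇑f) ∧ f y < f x}.ncard : ℕ) : ℝ) /
          (({f : X ≃ Fin (Fintype.card X) | StrictMono (⇑f)}.ncard : ℕ) : ℝ) ≤ 1 - β := by
  obtain ⟨p, hp⟩ := exists_eq_ciSup_of_finite
    (f := fun p : X × X => min (prob X p.1 p.2) (prob X p.2 p.1))
  have h1 : β ≤ min (prob X p.1 p.2) (prob X p.2 p.1) := by
    rw [hp]; exact h
  have h2 := h1.trans (min_le_left _ _)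
  have h3 := h1.trans (min_le_right _ _)
  have h4 := prob_add_le p.1 p.2
  have e : ∀ x y : X, (({f : X ≃ Fin (Fintype.card X) | StrictMono (⇑f) ∧ f y < f x}.ncard : ℕ) : ℝ) /
          (({f : X ≃ Fin (Fintype.card X) | StrictMono (⇑f)}.ncard : ℕ) : ℝ) = prob X y x := by
    intro x y
    rw [LE_ncard, prob_cnt]
    rfl
  refine ⟨p.2, p.1, ?_, ?_, ?_⟩
  · intro heq
    rw [heq, prob_eqL] at h2
    simp only [lt_irrefl, Finset.filter_false, Finset.card_empty, Nat.cast_zero, zero_div] at h2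
    linarith
  · rw [e]; exact h2
  · rw [e]; linarith

end Pool.Agent.Y491.GP
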