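import Pool.Agent.Y491.FP.Final
import Pool.Agent.Y491.GP.Pairs

/-!
# The least balance constant can be computed up to `ε` from finitely many posets
-/

set_option autoImplicit false
set_option linter.unusedSectionVars false

open Finset
open scoped Classical

namespace Pool.Agent.Y491.GP

open Pool.Agent.H13R3.WB Pool.Agent.Y491.FP

section

open Pool.Agent.TH161.LW Pool.Agent.Y491.BF Pool.Agent.Y491.HG

lemma balance_of_pair {X : Type} [Fintype X] [PartialOrder X] {s : ℝ} {x y : X} (hxy : x ≠ y)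
    (h1 : s ≤
        (({f : X ≃ Fin (Fintype.card X) | StrictMono (⇑f) ∧ f y < f x}.ncard : ℕ) : ℝ) /
          (({f : X ≃ Fin (Fintype.card X) | StrictMono (⇑f)}.ncard : ℕ) : ℝ))
    (h2 : (({f : X ≃ Fin (Fintype.card X) | StrictMono (⇑f) ∧ f y < f x}.ncard : ℕ) : ℝ) /
          (({f : X ≃ Fin (Fintype.card X) | StrictMono (⇑f)}.ncard : ℕ) : ℝ) ≤ 1 - s) :
    s ≤ balance X := by
  have e : (({f : X ≃ Fin (Fintype.card X) | StrictMono (⇑f) ∧ f y < f x}.ncard : ℕ) : ℝ) /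
          (({f : X ≃ Fin (Fintype.card X) | StrictMono (⇑f)}.ncard : ℕ) : ℝ) = prob X y x := by
    rw [LE_ncard, prob_cnt]
    rfl
  rw [e] at h1 h2
  have hN : (0 : ℝ) < (BF.LE X).card := Npos
  have h3 : prob X x y + prob X y x = 1 := by
    rw [prob_cnt, prob_cnt, ← add_div, div_eq_one_iff_eq hN.ne']
    exact_mod_cast cnt_total x y hxy
  unfold balance
  have h4 : s ≤ min (prob X x y) (prob X y x) := le_min (by linarith) h1
  refine h4.trans ?_
  exact le_ciSup (f := fun p : X × X => min (prob X p.1 p.2) (prob X p.2 p.1))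
    (Set.finite_range _).bddAbove (x, y)

end

theorem fin13 : ∃ B : ℝ, 0 < B ∧ ∀ ε : ℝ, 0 < ε → ε ≤ 1 / 2 →
    ∀ (P : Type) [Fintype P] [PartialOrder P], (∃ x y : P, ¬ x ≤ y ∧ ¬ y ≤ x) →
    ∃ (Q : Type) (_ : Fintype Q) (_ : PartialOrder Q), (∃ x y : Q, ¬ x ≤ y ∧ ¬ y ≤ x) ∧
      (Fintype.card Q : ℝ) ≤ Real.exp (Real.exp (Real.exp (B * Real.log (2 / ε) ^ 3 / ε ^ 4))) ∧
      balance Q ≤ balance P + ε := by
  obtain ⟨B₁, hB₁, hID⟩ := Pool.Agent.Y491.ID.incomparable_balance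
  obtain ⟨B₂, hB₂, h⟩ := main2
  refine ⟨max B₁ B₂, lt_max_of_lt_left hB₁, fun ε hε hε2 P _ _ hP => ?_⟩
  have hlog : 0 ≤ Real.log (2 / ε) := Real.log_nonneg (by rw [le_div_iff₀ hε]; linarith)
  have hmono : ∀ b : ℝ, b ≤ max B₁ B₂ → b * Real.log (2 / ε) ^ 3 / ε ^ 4 ≤
      max B₁ B₂ * Real.log (2 / ε) ^ 3 / ε ^ 4 := by
    intro b hb
    exact div_le_div_of_nonneg_right (mul_le_mul_of_nonneg_right hb (by positivity)) (by positivity)
  set E : ℝ := max B₁ B₂ * Real.log (2 / ε) ^ 3 / ε ^ 4 with hE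
  have hE0 : 0 ≤ E := by positivity
  have e1 := Real.add_one_le_exp E
  have e2 := Real.add_one_le_exp (Real.exp E)
  have e3 := Real.add_one_le_exp (Real.exp (Real.exp E))
  -- the width
  obtain ⟨A, hA, hmax⟩ := Finset.exists_max_image
    ((univ : Finset (Finset P)).filter fun A : Finset P => IsAntichain (· ≤ ·) (A : Set P))
    (fun A : Finset P => A.card) ⟨∅, by simp⟩
  rw [Finset.mem_filter] at hA
  obtain ⟨x, y, hx, hy⟩ := hP
  have hxy : x ≠ y := fun heq => hx (heq ▸ le_rfl)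
  have hA2 : 2 ≤ A.card := by
    have h1 := hmax {x, y} (by
      rw [Finset.mem_filter]
      refine ⟨Finset.mem_univ _, ?_⟩
      intro u hu v hv huv
      simp only [Finset.coe_insert, Finset.coe_singleton, Set.mem_insert_iff,
        Set.mem_singleton_iff] at hu hv
      rcases hu with rfl | rfl <;> rcases hv with rfl | rfl
      · exact absurd rfl huv
      · exact hx
      · exact hy
      · exact absurd rfl huv)
    rwa [Finset.card_pair hxy] at h1
  by_cases hw : (A.card : ℝ) ≤ Real.exp (Real.exp (Real.exp E))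
  · obtain ⟨Q, i1, i2, ⟨A', hA', hc⟩, -, h3, h4⟩ := h ε hε hε2 A.card P hA2 ⟨A, hA.2, rfl⟩
      (fun A' hA' => hmax A' (by rw [Finset.mem_filter]; exact ⟨Finset.mem_univ _, hA'⟩))
    refine ⟨Q, i1, i2, ?_, ?_, h4⟩
    · obtain ⟨u, hu, v, hv, huv⟩ := Finset.one_lt_card.1 (by omega : 1 < A'.card)
      exact ⟨u, v, hA' hu hv huv, hA' hv hu huv.symm⟩
    · refine h3.trans (max_le hw ?_)
      rw [Real.exp_le_exp, Real.exp_le_exp, Real.exp_le_exp]
      exact hmono _ (le_max_right _ _)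
  · push Not at hw
    obtain ⟨a, ha⟩ : A.Nonempty := Finset.card_pos.1 (by omega)
    have h1 : A.card - 1 ≤ Nat.card {y : P // ¬ a ≤ y ∧ ¬ y ≤ a} := by
      rw [← Finset.card_erase_of_mem ha]
      have : Nat.card {y : P // ¬ a ≤ y ∧ ¬ y ≤ a} =
          (univ.filter fun y : P => ¬ a ≤ y ∧ ¬ y ≤ a).card := by
        rw [Nat.card_eq_fintype_card, Fintype.card_subtype]
      rw [this]
      refine Finset.card_le_card fun z hz => ?_
      rw [Finset.mem_erase] at hz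
      rw [Finset.mem_filter]
      exact ⟨Finset.mem_univ _, hA.2 ha hz.2 hz.1.symm, hA.2 hz.2 ha hz.1⟩
    have h2 : Real.exp (B₁ * Real.log (2 / ε) ^ 3 / ε ^ 4) ≤
        Nat.card {y : P // ¬ a ≤ y ∧ ¬ y ≤ a} := by
      have h3 : Real.exp (B₁ * Real.log (2 / ε) ^ 3 / ε ^ 4) ≤ Real.exp E :=
        Real.exp_le_exp.2 (hmono _ (le_max_left _ _))
      have h4 : ((A.card - 1 : ℕ) : ℝ) ≤ (Nat.card {y : P // ¬ a ≤ y ∧ ¬ y ≤ a} : ℝ) := by
        exact_mod_cast h1
      rw [Nat.cast_sub (by omega)] at h4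
      push_cast at h4
      linarith
    have h5 := hID ε hε hε2 P a h2
    refine ⟨↥({x, y} : Finset P), inferInstance, inferInstance, ?_, ?_, ?_⟩
    · exact ⟨⟨x, by simp⟩, ⟨y, by simp⟩, fun h => hx h, fun h => hy h⟩
    · rw [Fintype.card_coe, Finset.card_pair hxy]
      push_cast
      linarith
    · have hne : Nonempty ↥({x, y} : Finset P) := ⟨⟨x, by simp⟩⟩
      have h6 : balance ↥({x, y} : Finset P) ≤ 1 / 2 := (ISO.t_HALF _).2
      linarith

end Pool.Agent.Y491.GP
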