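import Pool.Agent.Y491.HG.Main
import Pool.Agent.Y491.BF.Final

/-!
# Golden partitions of posets with a nearly balanced pair

`GoldPair a b` says that comparing `a` and `b` first and then a suitable second pair, depending on the
outcome, gives `e(P) ≥ e(P₁) + e(P₂)` for all outcomes.
-/

set_option autoImplicit false
set_option linter.unusedSectionVars false

open Finset
open scoped Classical

namespace Pool.Agent.Y491.GP

open Pool.Agent.TH161.LW Pool.Agent.Y491.BF Pool.Agent.H13R3.WB Pool.Agent.Y491.HG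

/-- a copy of `α`, without its order -/
def Cp (α : Type) : Type := α

instance (α : Type) [Fintype α] : Fintype (Cp α) := inferInstanceAs (Fintype α)

section

variable {α : Type} [Fintype α] [PartialOrder α]

/-- the poset after the comparison with the outcome `u < v` -/
@[reducible] def addRel (u v : α) (h : ¬ v ≤ u) : PartialOrder (Cp α) where
  le x y := (show α from x) ≤ (show α from y) ∨ ((show α from x) ≤ u ∧ v ≤ (show α from y))
  le_refl x := Or.inl (le_refl (show α from x))
  le_trans x y z h1 h2 := by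
    rcases h1 with h1 | ⟨h1, h1'⟩ <;> rcases h2 with h2 | ⟨h2, h2'⟩
    · exact Or.inl (h1.trans h2)
    · exact Or.inr ⟨h1.trans h2, h2'⟩
    · exact Or.inr ⟨h1, h1'.trans h2⟩
    · exact absurd (h1'.trans h2) h
  le_antisymm x y h1 h2 := by
    rcases h1 with h1 | ⟨h1, h1'⟩ <;> rcases h2 with h2 | ⟨h2, h2'⟩
    · exact @le_antisymm α _ x y h1 h2
    · exact absurd (h2'.trans (h1.trans h2)) h
    · exact absurd (h1'.trans (h2.trans h1)) h
    · exact absurd (h1'.trans h2) h

/-- number of linear extensions with a property -/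
noncomputable def cnt (p : (α ≃ Fin (Fintype.card α)) → Prop) : ℕ :=
  {f : α ≃ Fin (Fintype.card α) | StrictMono (f : α → Fin (Fintype.card α)) ∧ p f}.ncard

lemma cnt_eq (p : (α ≃ Fin (Fintype.card α)) → Prop) [DecidablePred p] :
    cnt p = ((BF.LE α).filter p).card := by
  unfold cnt
  rw [← Set.ncard_coe_finset]
  congr 1
  ext f
  simp only [Finset.coe_filter, mem_LE, Set.mem_ofPred_eq]

lemma prob_cnt (x y : α) : prob α x y = (cnt (fun f => f x < f y) : ℝ) / (BF.LE α).card := by
  rw [prob_eqL, cnt_eq]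

lemma mono_iff (u v : α) (h : ¬ v ≤ u) (f : α ≃ Fin (Fintype.card α)) :
    (∀ x y : α, (x ≤ y ∨ (x ≤ u ∧ v ≤ y)) → f x ≤ f y) ↔ (StrictMono ⇑f ∧ f u < f v) := by
  constructor
  · intro h1
    have hm : Monotone ⇑f := fun x y hxy => h1 x y (Or.inl hxy)
    refine ⟨hm.strictMono_of_injective f.injective, ?_⟩
    refine lt_of_le_of_ne (h1 u v (Or.inr ⟨le_rfl, le_rfl⟩)) ?_
    intro heq
    exact h (le_of_eq (f.injective heq).symm)
  · rintro ⟨h1, h2⟩ x y (h3 | ⟨h3, h4⟩)
    · exact h1.monotone h3
    · exact (h1.monotone h3).trans (h2.le.trans (h1.monotone h4))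

/-- probabilities after the comparison -/
lemma prob_addRel (u v : α) (h : ¬ v ≤ u) (c d : α) :
    @prob (Cp α) _ (addRel u v h) c d * (cnt (fun f : α ≃ Fin (Fintype.card α) => f u < f v) : ℝ) =
      (cnt (fun f : α ≃ Fin (Fintype.card α) => f u < f v ∧ f c < f d) : ℝ) := by
  have e1 : Nat.card {f : Cp α ≃ Fin (Fintype.card (Cp α)) //
      @Monotone (Cp α) _ (addRel u v h).toPreorder _ f} =
      cnt (fun f : α ≃ Fin (Fintype.card α) => f u < f v) := by
    unfold cnt
    rw [← Nat.card_coe_set_eq]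
    refine Nat.card_congr (Equiv.subtypeEquivRight fun f => ?_)
    exact mono_iff u v h f
  have e2 : Nat.card {f : Cp α ≃ Fin (Fintype.card (Cp α)) //
      @Monotone (Cp α) _ (addRel u v h).toPreorder _ f ∧ f c < f d} =
      cnt (fun f : α ≃ Fin (Fintype.card α) => f u < f v ∧ f c < f d) := by
    unfold cnt
    rw [← Nat.card_coe_set_eq]
    refine Nat.card_congr (Equiv.subtypeEquivRight fun f => ?_)
    have := mono_iff u v h f
    constructor
    · rintro ⟨h1, h2⟩
      exact ⟨(this.1 h1).1, (this.1 h1).2, h2⟩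
    · rintro ⟨h1, h2, h3⟩
      exact ⟨this.2 ⟨h1, h2⟩, h3⟩
  unfold prob
  rw [e1, e2]
  by_cases h0 : cnt (fun f : α ≃ Fin (Fintype.card α) => f u < f v) = 0
  · have h1 : cnt (fun f : α ≃ Fin (Fintype.card α) => f u < f v ∧ f c < f d) = 0 := by
      rw [cnt_eq] at h0 ⊢
      rw [Finset.card_eq_zero, Finset.filter_eq_empty_iff] at h0 ⊢
      intro f hf h2
      exact h0 hf h2.1
    rw [h0, h1]
    simp
  · have h2 : ((cnt (fun f : α ≃ Fin (Fintype.card α) => f u < f v) : ℕ) : ℝ) ≠ 0 := by
      exact_mod_cast h0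
    field_simp

lemma cnt_total (a b : α) (hab : a ≠ b) :
    cnt (fun f : α ≃ Fin (Fintype.card α) => f a < f b) +
      cnt (fun f : α ≃ Fin (Fintype.card α) => f b < f a) = (BF.LE α).card := by
  have h : ((BF.LE α).filter fun f => f b < f a) = (BF.LE α).filter fun f => ¬ f a < f b := by
    refine Finset.filter_congr fun f _ => ?_
    rw [not_lt]
    constructor
    · exact fun h => h.le
    · intro h
      exact lt_of_le_of_ne h fun h2 => hab (f.injective h2).symm
  rw [cnt_eq, cnt_eq, h]
  exact Finset.card_filter_add_card_filter_not _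

/-- incomparable elements occur in both orders -/
lemma cnt_pos {u v : α} (h : ¬ v ≤ u) :
    0 < cnt (fun f : α ≃ Fin (Fintype.card α) => f u < f v) := by
  have h1 := @Pool.Agent.TH161.KS.eN_pos (Cp α) _ (addRel u v h)
  have h2 : @eN (Cp α) _ (addRel u v h) =
      cnt (fun f : α ≃ Fin (Fintype.card α) => f u < f v) := by
    unfold eN cnt
    rw [← Nat.card_coe_set_eq]
    refine Nat.card_congr (Equiv.subtypeEquivRight fun f => ?_)
    have := mono_iff u v h f
    constructor
    · intro h3
      exact this.1 (fun x y hxy => (@StrictMono.monotone (Cp α) _ (addRel u v h) _ f h3) hxy)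
    · intro h3
      exact @Monotone.strictMono_of_injective (Cp α) _ (addRel u v h).toPreorder _ f
        (fun x y hxy => this.2 h3 x y hxy) f.injective
  rw [h2] at h1
  exact h1

/-- second comparison -/
lemma second {β : ℝ} (hβ0 : 0 < β) (hβ1 : β < 1)
    (hbal : ∀ (P : Type) [Fintype P] [PartialOrder P],
      (∃ x y : P, ¬ x ≤ y ∧ ¬ y ≤ x) → β ≤ balance P)
    (u v : α) (h : ¬ v ≤ u) (h' : ¬ u ≤ v)
    (hp : (2 - β) * prob α u v ≤ 1) :
    ∃ c d : α, c ≠ d ∧ ∀ w z : α, ((w = c ∧ z = d) ∨ (w = d ∧ z = c)) →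
      cnt (fun f : α ≃ Fin (Fintype.card α) => f u < f v) +
        cnt (fun f : α ≃ Fin (Fintype.card α) => f u < f v ∧ f w < f z) ≤ (BF.LE α).card := by
  have huv : u ≠ v := fun heq => h (heq ▸ le_rfl)
  by_cases hch : ∃ x y : α, ¬ (x ≤ y ∨ (x ≤ u ∧ v ≤ y)) ∧ ¬ (y ≤ x ∨ (y ≤ u ∧ v ≤ x))
  · -- not a chain
    have h1 : β ≤ @balance (Cp α) _ (addRel u v h) := by
      obtain ⟨x, y, hx, hy⟩ := hch
      exact @hbal (Cp α) _ (addRel u v h) ⟨x, y, hx, hy⟩
    have hne : Nonempty (Cp α) := ⟨u⟩
    obtain ⟨p, hp'⟩ := exists_eq_ciSup_of_finite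
      (f := fun p : Cp α × Cp α => min (@prob (Cp α) _ (addRel u v h) p.1 p.2)
        (@prob (Cp α) _ (addRel u v h) p.2 p.1))
    have h2 : β ≤ min (@prob (Cp α) _ (addRel u v h) p.1 p.2)
        (@prob (Cp α) _ (addRel u v h) p.2 p.1) := by
      rw [hp']; exact h1
    have h3 := h2.trans (min_le_left _ _)
    have h4 := h2.trans (min_le_right _ _)
    have h5 := @prob_add_le (Cp α) _ (addRel u v h) p.1 p.2
    have hcd : p.1 ≠ p.2 := by
      intro heq
      rw [heq, @prob_eqL (Cp α) _ (addRel u v h)] at h3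
      simp only [lt_irrefl, Finset.filter_false, Finset.card_empty, Nat.cast_zero, zero_div] at h3
      linarith
    have hN : (0 : ℝ) < (BF.LE α).card := Npos
    have hNu : (0 : ℝ) ≤ (cnt (fun f : α ≃ Fin (Fintype.card α) => f u < f v) : ℝ) :=
      Nat.cast_nonneg _
    have hp2 : (2 - β) * (cnt (fun f : α ≃ Fin (Fintype.card α) => f u < f v) : ℝ) ≤
        (BF.LE α).card := by
      rw [prob_cnt, mul_div_assoc', div_le_one hN] at hp
      exact hp
    have key : ∀ c d : α, @prob (Cp α) _ (addRel u v h) c d ≤ 1 - β →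
        cnt (fun f : α ≃ Fin (Fintype.card α) => f u < f v) +
        cnt (fun f : α ≃ Fin (Fintype.card α) => f u < f v ∧ f c < f d) ≤ (BF.LE α).card := by
      intro c d hcd
      have h6 := prob_addRel u v h c d
      have h7 : (cnt (fun f : α ≃ Fin (Fintype.card α) => f u < f v ∧ f c < f d) : ℝ) ≤
          (1 - β) * (cnt (fun f : α ≃ Fin (Fintype.card α) => f u < f v) : ℝ) := by
        rw [← h6]
        exact mul_le_mul_of_nonneg_right hcd hNu
      have h8 : ((cnt (fun f : α ≃ Fin (Fintype.card α) => f u < f v) +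
        cnt (fun f : α ≃ Fin (Fintype.card α) => f u < f v ∧ f c < f d) : ℕ) : ℝ) ≤
          (BF.LE α).card := by
        push_cast
        linarith
      exact_mod_cast h8
    refine ⟨p.1, p.2, hcd, ?_⟩
    rintro w z (⟨rfl, rfl⟩ | ⟨rfl, rfl⟩)
    · exact key _ _ (by linarith)
    · exact key _ _ (by linarith)
  · -- a chain
    have hch' : ∀ x y : α, ¬ (x ≤ y ∨ (x ≤ u ∧ v ≤ y)) → (y ≤ x ∨ (y ≤ u ∧ v ≤ x)) :=
      fun x y h2 => by
        by_contra h3
        exact hch ⟨x, y, h2, h3⟩
    have h1 : cnt (fun f : α ≃ Fin (Fintype.card α) => f u < f v) ≤ 1 := by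
      rw [cnt_eq, Finset.card_le_one]
      intro f hf g hg
      rw [Finset.mem_filter] at hf hg
      have hf' := (mono_iff u v h f).2 ⟨mem_LE.1 hf.1, hf.2⟩
      have hg' := (mono_iff u v h g).2 ⟨mem_LE.1 hg.1, hg.2⟩
      -- both are determined by the order
      have hiff : ∀ x y : α, f x ≤ f y ↔ g x ≤ g y := by
        intro x y
        constructor
        · intro hxy
          by_contra hn
          have h2 : ¬ (x ≤ y ∨ (x ≤ u ∧ v ≤ y)) := fun h3 => hn (hg' x y h3)
          have h3 := hch' x y h2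
          have h4 := hf' y x h3
          have h5 : x = y := f.injective (le_antisymm hxy h4)
          exact hn (h5 ▸ le_rfl)
        · intro hxy
          by_contra hn
          have h2 : ¬ (x ≤ y ∨ (x ≤ u ∧ v ≤ y)) := fun h3 => hn (hf' x y h3)
          have h3 := hch' x y h2
          have h4 := hg' y x h3
          have h5 : x = y := g.injective (le_antisymm hxy h4)
          exact hn (h5 ▸ le_rfl)
      have hφ : StrictMono ⇑(f.symm.trans g) := by
        refine Monotone.strictMono_of_injective (fun i j hij => ?_) (f.symm.trans g).injective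
        have := (hiff (f.symm i) (f.symm j)).1 (by simpa using hij)
        simpa using this
      have hφ2 : (f.symm.trans g) = Equiv.refl _ := by
        ext i
        have := congrFun (Finset.orderEmbOfFin_unique (s := (Finset.univ : Finset (Fin (Fintype.card α))))
          (by simp) (fun x => Finset.mem_univ _) hφ) i
        have h2 := congrFun (Finset.orderEmbOfFin_unique (s := (Finset.univ : Finset (Fin (Fintype.card α))))
          (by simp) (fun x => Finset.mem_univ _) (strictMono_id)) i
        rw [this, ← h2]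
        rfl
      ext x
      have := congrArg (fun e : Fin (Fintype.card α) ≃ Fin (Fintype.card α) => e (f x)) hφ2
      simp at this
      rw [this]
    refine ⟨u, v, huv, ?_⟩
    intro w z _
    have h2 : cnt (fun f : α ≃ Fin (Fintype.card α) => f u < f v ∧ f w < f z) ≤
        cnt (fun f : α ≃ Fin (Fintype.card α) => f u < f v) := by
      rw [cnt_eq, cnt_eq]
      refine Finset.card_le_card fun f hf => ?_
      rw [Finset.mem_filter] at hf ⊢
      exact ⟨hf.1, hf.2.1⟩
    have h3 := cnt_total u v huv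
    have h4 := cnt_pos (u := v) (v := u) h'
    have h5 := cnt_pos (u := u) (v := v) h
    omega

end

/-- the conclusion of the golden partition conjecture, for the first pair `a`, `b` -/
def Gold (α : Type) [Fintype α] [PartialOrder α] (a b : α) : Prop :=
  ∀ u v : α, ((u = a ∧ v = b) ∨ (u = b ∧ v = a)) →
    ∃ c d : α, c ≠ d ∧
      ∀ w z : α, ((w = c ∧ z = d) ∨ (w = d ∧ z = c)) →
        {f : α ≃ Fin (Fintype.card α) |
            StrictMono (f : α → Fin (Fintype.card α)) ∧ f u < f v}.ncard
          + {f : α ≃ Fin (Fintype.card α) |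
            StrictMono (f : α → Fin (Fintype.card α)) ∧ f u < f v ∧ f w < f z}.ncard
          ≤ {f : α ≃ Fin (Fintype.card α) |
            StrictMono (f : α → Fin (Fintype.card α))}.ncard

lemma LE_ncard (α : Type) [Fintype α] [PartialOrder α] :
    {f : α ≃ Fin (Fintype.card α) | StrictMono (f : α → Fin (Fintype.card α))}.ncard =
      (BF.LE α).card := by
  rw [← Set.ncard_coe_finset]
  congr 1
  ext f
  simp only [Finset.mem_coe, mem_LE, Set.mem_ofPred_eq]

theorem gold_of_prob {β : ℝ} (hβ0 : 0 < β) (hβ1 : β < 1)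
    (hbal : ∀ (P : Type) [Fintype P] [PartialOrder P],
      (∃ x y : P, ¬ x ≤ y ∧ ¬ y ≤ x) → β ≤ balance P)
    (α : Type) [Fintype α] [PartialOrder α] (a b : α) (h1 : ¬ a ≤ b) (h2 : ¬ b ≤ a)
    (hp1 : (2 - β) * prob α a b ≤ 1) (hp2 : (2 - β) * prob α b a ≤ 1) : Gold α a b := by
  unfold Gold
  rw [LE_ncard]
  rintro u v (⟨rfl, rfl⟩ | ⟨rfl, rfl⟩)
  · exact second hβ0 hβ1 hbal _ _ h2 h1 hp1
  · exact second hβ0 hβ1 hbal _ _ h1 h2 hp2

end Pool.Agent.Y491.GP
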